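import Mathlib

/-!
A criterion for non-regularizability. If `‖v k‖ ≥ 1`, `A (v k) → 0`, `‖e k j‖ ≤ 2^{-k}` and
`A (e k j) → A (v k)` as `j → ∞`, then no family `T α` regularizes `A f = g`.
-/

set_option autoImplicit false
open Filter Topology

namespace Pool.Agent.X84.Reg

theorem core {X Y : Type*} [NormedAddCommGroup X] [NormedSpace ℝ X] [CompleteSpace X]
    [NormedAddCommGroup Y] [NormedSpace ℝ Y] (A : X →L[ℝ] Y)
    (v : ℕ → X) (e : ℕ → ℕ → X) (hv : ∀ k, 1 ≤ ‖v k‖)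
    (hAv : Tendsto (fun k => A (v k)) atTop (𝓝 0))
    (he : ∀ k j, ‖e k j‖ ≤ (1 / 2 : ℝ) ^ k)
    (hAe : ∀ k, Tendsto (fun j => A (e k j)) atTop (𝓝 (A (v k)))) :
    ¬ ∃ T : ℝ → Y → X, ∀ f : X, ∀ ε : ℝ, 0 < ε → ∃ δ : ℝ, 0 < δ ∧
        ∀ α : ℝ, 0 < α → α ≤ 1 → α < δ → ∀ g : Y, ‖g - A f‖ ≤ α → ‖f - T α g‖ ≤ ε := by
  rintro ⟨T, hT⟩
  have step : ∀ (n : ℕ) (p : {p : X × ℝ // 0 < p.2}), ∃ (V E : X) (α η : ℝ),
      1 ≤ ‖V‖ ∧ ‖E‖ ≤ (1 / 2 : ℝ) ^ (n + 2) ∧ 0 < α ∧ α ≤ 1 / ((n : ℝ) + 1) ∧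
      (∀ g : Y, ‖g - A (p.1.1 + V)‖ ≤ α → ‖p.1.1 + V - T α g‖ ≤ 1 / 8) ∧
      0 < η ∧ 4 * η ≤ p.1.2 ∧ 4 * η ≤ α ∧ ‖A V‖ ≤ p.1.2 ∧ ‖A E - A V‖ ≤ η := by
    rintro n ⟨⟨S, η0⟩, h0⟩
    simp only at h0
    have h1 : ∀ᶠ k in atTop, ‖A (v k)‖ < η0 := by
      have := (tendsto_norm_zero.comp hAv).eventually (gt_mem_nhds h0)
      simpa using this
    obtain ⟨k, hk1, hk2⟩ := (h1.and (eventually_ge_atTop (n + 2))).exists
    obtain ⟨δ, hδ, hδ'⟩ := hT (S + v k) (1 / 8) (by norm_num)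
    have hn : (0 : ℝ) < 1 / ((n : ℝ) + 1) := by positivity
    have hn1 : 1 / ((n : ℝ) + 1) ≤ 1 := by
      rw [div_le_one (by positivity)]
      linarith [(Nat.cast_nonneg n : (0 : ℝ) ≤ n)]
    set α := min (δ / 2) (1 / ((n : ℝ) + 1)) with hα
    have hα0 : 0 < α := lt_min (by linarith) hn
    have hα1 : α ≤ 1 / ((n : ℝ) + 1) := min_le_right _ _
    have hα2 : α ≤ δ / 2 := min_le_left _ _
    set η := min η0 α / 4 with hη
    have hη0 : 0 < η := by
      have : 0 < min η0 α := lt_min h0 hα0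
      positivity
    have h2 : ∀ᶠ j in atTop, ‖A (e k j) - A (v k)‖ < η := by
      have := (hAe k).sub_const (A (v k))
      rw [sub_self] at this
      have := (tendsto_norm_zero.comp this).eventually (gt_mem_nhds hη0)
      simpa using this
    obtain ⟨j, hj⟩ := h2.exists
    refine ⟨v k, e k j, α, η, hv k, ?_, hα0, hα1, ?_, hη0, ?_, ?_, hk1.le, hj.le⟩
    · exact (he k j).trans (pow_le_pow_of_le_one (by norm_num) (by norm_num) hk2)
    · intro g hg
      exact hδ' α hα0 (hα1.trans hn1) (by linarith) g hg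
    · show 4 * η ≤ η0
      have := min_le_left η0 α
      rw [hη]; linarith
    · have := min_le_right η0 α
      rw [hη]; linarith
  choose fV fE fα fη h1 h2 h3 h4 h5 h6 h7 h8 h9 h10 using step
  let st : ℕ → {p : X × ℝ // 0 < p.2} := fun n => Nat.rec ⟨(0, 1), one_pos⟩
    (fun n p => ⟨(p.1.1 + fE n p, fη n p), h6 n p⟩) n
  have st_succ : ∀ n, st (n + 1) = ⟨((st n).1.1 + fE n (st n), fη n (st n)), h6 n (st n)⟩ :=
    fun n => rfl
  set E : ℕ → X := fun n => fE n (st n) with hE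
  set V : ℕ → X := fun n => fV n (st n) with hV
  set α : ℕ → ℝ := fun n => fα n (st n) with hα
  set η : ℕ → ℝ := fun n => (st n).1.2 with hη
  have hη1 : ∀ n, η (n + 1) = fη n (st n) := fun n => rfl
  have hS : ∀ n, (st n).1.1 = ∑ m ∈ Finset.range n, E m := by
    intro n
    induction n with
    | zero => rfl
    | succ n ih =>
      rw [Finset.sum_range_succ, ← ih]
  have hηpos : ∀ n, 0 < η n := fun n => (st n).2
  have hη4 : ∀ n, 4 * η (n + 1) ≤ η n := fun n => h7 n (st n)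
  have hηα : ∀ n, 4 * η (n + 1) ≤ α n := fun n => h8 n (st n)
  have hAV : ∀ n, ‖A (V n)‖ ≤ η n := fun n => h9 n (st n)
  have hAEV : ∀ n, ‖A (E n) - A (V n)‖ ≤ η (n + 1) := fun n => h10 n (st n)
  have hEn : ∀ n, ‖E n‖ ≤ (1 / 2 : ℝ) ^ (n + 2) := fun n => h2 n (st n)
  have hVn : ∀ n, 1 ≤ ‖V n‖ := fun n => h1 n (st n)
  have hsum : Summable E := by
    apply Summable.of_norm_bounded (g := fun n => (1 / 2 : ℝ) ^ (n + 2)) _ hEn
    exact (summable_geometric_of_lt_one (by norm_num) (by norm_num)).comp_injective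
      (add_left_injective 2)
  set f : X := ∑' n, E n with hf
  have hAE : ∀ n, ‖A (E n)‖ ≤ 2 * η n := by
    intro n
    have e1 : A (E n) = (A (E n) - A (V n)) + A (V n) := by abel
    rw [e1]
    refine (norm_add_le _ _).trans ?_
    have := hAV n
    have := hAEV n
    have := hη4 n
    have := hηpos n
    have := hηpos (n + 1)
    linarith
  have hηgeo : ∀ n m, η (n + m) ≤ (1 / 4 : ℝ) ^ m * η n := by
    intro n m
    induction m with
    | zero => simp
    | succ m ih =>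
      have := hη4 (n + m)
      rw [← add_assoc, pow_succ]
      linarith
  obtain ⟨δ, hδ, hδ'⟩ := hT f (1 / 8) (by norm_num)
  obtain ⟨n, hn⟩ := exists_nat_one_div_lt hδ
  have hdecomp : f = (∑ m ∈ Finset.range n, E m) + ∑' m, E (m + n) :=
    (hsum.sum_add_tsum_nat_add n).symm
  have hsumn : Summable fun m => E (m + n) := (summable_nat_add_iff n).2 hsum
  -- distance in X
  have hX : 1 / 2 ≤ ‖f - ((st n).1.1 + V n)‖ := by
    have e1 : f - ((st n).1.1 + V n) = (∑' m, E (m + n)) - V n := by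
      rw [hS n, hdecomp]; abel
    rw [e1]
    have hb : ‖∑' m, E (m + n)‖ ≤ 1 / 2 := by
      have hg : HasSum (fun m : ℕ => (1 / 2 : ℝ) ^ m * (1 / 2) ^ 2) (2 * (1 / 2) ^ 2) := by
        have := hasSum_geometric_two
        exact this.mul_right _
      have := tsum_of_norm_bounded (f := fun m => E (m + n)) hg (fun m => by
        refine (hEn (m + n)).trans ?_
        rw [← pow_add]
        exact pow_le_pow_of_le_one (by norm_num) (by norm_num) (by omega))
      refine this.trans (by norm_num)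
    have h3 := norm_sub_norm_le (V n) (∑' m, E (m + n))
    rw [norm_sub_rev] at h3
    have := hVn n
    linarith
  -- distance in Y
  have hY : ‖A ((st n).1.1 + V n) - A f‖ ≤ α n := by
    have e1 : f = (∑ m ∈ Finset.range (n + 1), E m) + ∑' m, E (m + (n + 1)) :=
      (hsum.sum_add_tsum_nat_add (n + 1)).symm
    have hsumn1 : Summable fun m => E (m + (n + 1)) := (summable_nat_add_iff (n + 1)).2 hsum
    have e2 : A ((st n).1.1 + V n) - A f = -(A (E n) - A (V n)) - A (∑' m, E (m + (n + 1))) := by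
      rw [hS n]
      conv_lhs => rw [e1]
      rw [Finset.sum_range_succ]
      simp only [map_add]
      abel
    rw [e2, A.map_tsum hsumn1]
    have hb : ‖∑' m, A (E (m + (n + 1)))‖ ≤ 8 / 3 * η (n + 1) := by
      have hg : HasSum (fun m : ℕ => (1 / 4 : ℝ) ^ m * (2 * η (n + 1)))
          ((1 - 1 / 4)⁻¹ * (2 * η (n + 1))) :=
        (hasSum_geometric_of_lt_one (by norm_num) (by norm_num)).mul_right _
      have := tsum_of_norm_bounded (f := fun m => A (E (m + (n + 1)))) hg (fun m => by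
        have a1 := hAE (m + (n + 1))
        have a2 := hηgeo (n + 1) m
        rw [add_comm (n + 1) m] at a2
        linarith)
      refine this.trans (le_of_eq (by ring))
    refine (norm_sub_le _ _).trans ?_
    rw [norm_neg]
    have := hAEV n
    have := hηα n
    have := hηpos (n + 1)
    linarith
  have hα0 : 0 < α n := h3 n (st n)
  have hα1 : α n ≤ 1 / ((n : ℝ) + 1) := h4 n (st n)
  have hα2 : α n ≤ 1 := by
    refine hα1.trans ?_
    rw [div_le_one (by positivity)]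
    linarith [(Nat.cast_nonneg n : (0 : ℝ) ≤ n)]
  have q1 := hδ' (α n) hα0 hα2 (lt_of_le_of_lt hα1 hn) _ hY
  have q2 : ‖(st n).1.1 + V n - T (α n) (A ((st n).1.1 + V n))‖ ≤ 1 / 8 :=
    h5 n (st n) _ (by rw [sub_self, norm_zero]; exact hα0.le)
  have q3 : ‖f - ((st n).1.1 + V n)‖ ≤ 1 / 8 + 1 / 8 := by
    have e1 : f - ((st n).1.1 + V n) = (f - T (α n) (A ((st n).1.1 + V n))) -
        ((st n).1.1 + V n - T (α n) (A ((st n).1.1 + V n))) := by abel
    rw [e1]
    exact (norm_sub_le _ _).trans (add_le_add q1 q2)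
  linarith

end Pool.Agent.X84.Reg
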