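import Pool.Agent.X84.Reg.Core

/-!
The operator `ℓ¹(ℕ × ℕ) → ℓ^∞(ℕ × ℕ)` with
`δ (k, 0) ↦ 4^{-k} η (k, 0)` and `δ (k, j) ↦ 2^{-k} η (k, 0) + 2^{-j} η (k, j)`, `j ≥ 1`.
-/

set_option autoImplicit false
open Filter Topology
open scoped BoundedContinuousFunction NNReal

universe u v

namespace Pool.Agent.X84.Reg

section op

variable {ι : Type u} {Y : Type v} [NormedAddCommGroup Y] [NormedSpace ℝ Y] [CompleteSpace Y]

theorem l1_summable (x : lp (fun _ : ι => ℝ) 1) : Summable fun i => ‖x i‖ := by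
  have := (memℓp_gen_iff (p := 1) (by norm_num)).1 (lp.memℓp x)
  simpa using this

theorem l1_norm (x : lp (fun _ : ι => ℝ) 1) : ‖x‖ = ∑' i, ‖x i‖ := by
  have := lp.norm_eq_tsum_rpow (p := 1) (by norm_num) x
  simpa using this

theorem smul_summable (y : ι → Y) (hy : ∀ i, ‖y i‖ ≤ 1) (x : lp (fun _ : ι => ℝ) 1) :
    Summable fun i => x i • y i := by
  apply Summable.of_norm_bounded (l1_summable x)
  intro i
  rw [norm_smul]
  calc ‖x i‖ * ‖y i‖ ≤ ‖x i‖ * 1 := mul_le_mul_of_nonneg_left (hy i) (norm_nonneg _)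
    _ = ‖x i‖ := mul_one _

/-- The operator with `δ i ↦ y i`. -/
noncomputable def op (y : ι → Y) (hy : ∀ i, ‖y i‖ ≤ 1) : lp (fun _ : ι => ℝ) 1 →L[ℝ] Y :=
  LinearMap.mkContinuous
    { toFun := fun x => ∑' i, x i • y i
      map_add' := by
        intro a b
        rw [← (smul_summable y hy a).tsum_add (smul_summable y hy b)]
        congr 1
        funext i
        rw [← add_smul]
        rfl
      map_smul' := by
        intro c a
        simp only [RingHom.id_apply]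
        rw [← (smul_summable y hy a).tsum_const_smul c]
        congr 1
        funext i
        rw [smul_smul]
        rfl } 1 (by
      intro x
      rw [one_mul, l1_norm]
      simp only [LinearMap.coe_mk, AddHom.coe_mk]
      refine tsum_of_norm_bounded (l1_summable x).hasSum ?_
      intro i
      rw [norm_smul]
      calc ‖x i‖ * ‖y i‖ ≤ ‖x i‖ * 1 := mul_le_mul_of_nonneg_left (hy i) (norm_nonneg _)
        _ = ‖x i‖ := mul_one _)

theorem op_apply (y : ι → Y) (hy : ∀ i, ‖y i‖ ≤ 1) (x : lp (fun _ : ι => ℝ) 1) :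
    op y hy x = ∑' i, x i • y i := rfl

theorem op_single [DecidableEq ι] (y : ι → Y) (hy : ∀ i, ‖y i‖ ≤ 1) (i : ι) (c : ℝ) :
    op y hy (lp.single 1 i c) = c • y i := by
  rw [op_apply, tsum_eq_single i]
  · rw [lp.single_apply_self]
  · intro j hj
    rw [lp.single_apply_ne _ _ _ hj, zero_smul]

theorem l1_separable [Countable ι] :
    TopologicalSpace.SeparableSpace (lp (fun _ : ι => ℝ) 1) := by
  classical
  rw [← TopologicalSpace.isSeparable_univ_iff]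
  set s : Set (lp (fun _ : ι => ℝ) 1) := Set.range fun i : ι =>
    lp.single (E := fun _ : ι => ℝ) 1 i (1 : ℝ) with hs
  have h1 : TopologicalSpace.IsSeparable s := (Set.countable_range _).isSeparable
  have h2 : TopologicalSpace.IsSeparable (Submodule.span ℝ s : Set (lp (fun _ : ι => ℝ) 1)) :=
    h1.span
  refine h2.closure.mono ?_
  intro x _
  have h3 := lp.hasSum_single (p := 1) (by norm_num) x
  refine mem_closure_of_tendsto h3 (Filter.Eventually.of_forall fun t => ?_)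
  refine Submodule.sum_mem _ fun i _ => ?_
  have h4 : lp.single (E := fun _ : ι => ℝ) 1 i (x i) =
      x i • lp.single (E := fun _ : ι => ℝ) 1 i (1 : ℝ) := by
    have := lp.single_smul (𝕜 := ℝ) (E := fun _ : ι => ℝ) 1 i (x i) (1 : ℝ)
    rw [← this, smul_eq_mul, mul_one]
  rw [h4]
  exact Submodule.smul_mem _ _ (Submodule.subset_span ⟨i, rfl⟩)

end op

/-- The coordinates of the image of `δ i`. -/
noncomputable def yv (i p : ℕ × ℕ) : ℝ :=
  if p = i ∧ i.2 ≠ 0 then (1 / 2 : ℝ) ^ i.2 else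
    if p = (i.1, 0) then (if i.2 = 0 then (1 / 4 : ℝ) ^ i.1 else (1 / 2 : ℝ) ^ i.1) else 0

theorem yv_le (i p : ℕ × ℕ) : ‖yv i p‖ ≤ 1 := by
  unfold yv
  split_ifs
  · rw [norm_pow]
    exact pow_le_one₀ (norm_nonneg _) (by norm_num)
  · rw [norm_pow]
    exact pow_le_one₀ (norm_nonneg _) (by norm_num)
  · rw [norm_pow]
    exact pow_le_one₀ (norm_nonneg _) (by norm_num)
  · simp

/-- The image of `δ i`. -/
noncomputable def yy (i : ULift.{u} (ℕ × ℕ)) : ULift.{v} (ℕ × ℕ) →ᵇ ℝ :=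
  BoundedContinuousFunction.ofNormedAddCommGroupDiscrete (fun p => yv i.down p.down) 1
    (fun p => yv_le _ _)

theorem yy_apply (i : ULift.{u} (ℕ × ℕ)) (p : ULift.{v} (ℕ × ℕ)) :
    yy i p = yv i.down p.down := rfl

theorem yy_norm (i : ULift.{u} (ℕ × ℕ)) : ‖(yy i : ULift.{v} (ℕ × ℕ) →ᵇ ℝ)‖ ≤ 1 :=
  (BoundedContinuousFunction.norm_le (by norm_num)).2 fun p => yv_le _ _

/-- The operator. -/
noncomputable def AA : lp (fun _ : ULift.{u} (ℕ × ℕ) => ℝ) 1 →L[ℝ] (ULift.{v} (ℕ × ℕ) →ᵇ ℝ) :=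
  op yy yy_norm

theorem AA_coord (x : lp (fun _ : ULift.{u} (ℕ × ℕ) => ℝ) 1) (p : ULift.{v} (ℕ × ℕ)) :
    (AA.{u, v} x) p = ∑' i, x i * yv i.down p.down := by
  have h1 : AA.{u, v} x = ∑' i, x i • (yy i : ULift.{v} (ℕ × ℕ) →ᵇ ℝ) := rfl
  have h2 := (BoundedContinuousFunction.evalCLM ℝ p).map_tsum
    (smul_summable (yy : ULift.{u} (ℕ × ℕ) → ULift.{v} (ℕ × ℕ) →ᵇ ℝ) yy_norm x)
  rw [← h1] at h2
  exact h2

theorem AA_inj : Function.Injective AA.{u, v} := by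
  rw [injective_iff_map_eq_zero]
  intro x hx
  have hc : ∀ p : ULift.{v} (ℕ × ℕ), ∑' i, x i * yv i.down p.down = 0 := by
    intro p
    rw [← AA_coord, hx]
    rfl
  have h1 : ∀ k j : ℕ, j ≠ 0 → x ⟨(k, j)⟩ = 0 := by
    intro k j hj
    have := hc ⟨(k, j)⟩
    rw [tsum_eq_single ⟨(k, j)⟩] at this
    · have e1 : yv (k, j) (k, j) = (1 / 2 : ℝ) ^ j := by simp [yv, hj]
      simp only at this
      rw [e1] at this
      have h2 : (1 / 2 : ℝ) ^ j ≠ 0 := by positivity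
      exact (mul_eq_zero.1 this).resolve_right h2
    · intro i hi
      have h3 : ¬ ((k, j) = i.down) := fun h => hi (by rw [h])
      have h4 : ¬ ((k, j) = (i.down.1, 0)) := fun h => hj (by simpa using congrArg Prod.snd h)
      have e1 : yv i.down (k, j) = 0 := by
        unfold yv
        rw [if_neg (fun h => h3 h.1), if_neg h4]
      simp only
      rw [e1, mul_zero]
  have h0 : ∀ k : ℕ, x ⟨(k, 0)⟩ = 0 := by
    intro k
    have := hc ⟨(k, 0)⟩
    rw [tsum_eq_single ⟨(k, 0)⟩] at this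
    · have e1 : yv (k, 0) (k, 0) = (1 / 4 : ℝ) ^ k := by simp [yv]
      simp only at this
      rw [e1] at this
      have h2 : (1 / 4 : ℝ) ^ k ≠ 0 := by positivity
      exact (mul_eq_zero.1 this).resolve_right h2
    · rintro ⟨⟨a, b⟩⟩ hi
      by_cases hb : b = 0
      · subst hb
        have hak : a ≠ k := fun h => hi (by rw [h])
        have e1 : yv (a, 0) (k, 0) = 0 := by
          unfold yv
          rw [if_neg (fun h => h.2 rfl), if_neg]
          intro h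
          exact hak (by simpa using (congrArg Prod.fst h).symm)
        simp only
        rw [e1, mul_zero]
      · rw [h1 a b hb, zero_mul]
  ext ⟨⟨a, b⟩⟩
  by_cases hb : b = 0
  · subst hb
    exact h0 a
  · exact h1 a b hb

theorem AA_v (k : ℕ) : ‖AA.{u, v} (lp.single 1 ⟨(k, 0)⟩ (1 : ℝ))‖ ≤ (1 / 4 : ℝ) ^ k := by
  have e1 : AA.{u, v} (lp.single 1 ⟨(k, 0)⟩ (1 : ℝ)) = (1 : ℝ) • yy.{u, v} ⟨(k, 0)⟩ :=
    op_single _ _ _ _
  rw [e1, one_smul, BoundedContinuousFunction.norm_le (by positivity)]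
  intro p
  rw [yy_apply]
  unfold yv
  rw [if_neg (fun h => h.2 rfl)]
  split_ifs
  · rw [Real.norm_eq_abs, abs_of_nonneg (by positivity)]
  · simp only [ne_eq] at *
    tauto
  · simp only [norm_zero]
    positivity

theorem AA_e (k j : ℕ) : ‖AA.{u, v} (lp.single 1 ⟨(k, j + 1)⟩ ((1 / 2 : ℝ) ^ k)) -
    AA.{u, v} (lp.single 1 ⟨(k, 0)⟩ (1 : ℝ))‖ ≤ (1 / 2 : ℝ) ^ (j + 1) := by
  have e1 : AA.{u, v} (lp.single 1 ⟨(k, 0)⟩ (1 : ℝ)) = (1 : ℝ) • yy.{u, v} ⟨(k, 0)⟩ :=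
    op_single _ _ _ _
  have e2 : AA.{u, v} (lp.single 1 ⟨(k, j + 1)⟩ ((1 / 2 : ℝ) ^ k)) =
      ((1 / 2 : ℝ) ^ k) • yy.{u, v} ⟨(k, j + 1)⟩ := op_single _ _ _ _
  rw [e1, e2, one_smul, BoundedContinuousFunction.norm_le (by positivity)]
  rintro ⟨p⟩
  show ‖(1 / 2 : ℝ) ^ k * yv (k, j + 1) p - yv (k, 0) p‖ ≤ _
  by_cases h1 : p = (k, j + 1)
  · subst h1
    have a1 : yv (k, j + 1) (k, j + 1) = (1 / 2 : ℝ) ^ (j + 1) := by simp [yv]
    have a2 : yv (k, 0) (k, j + 1) = 0 := by simp [yv]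
    rw [a1, a2, sub_zero, norm_mul, norm_pow, norm_pow]
    have n1 : ‖(1 / 2 : ℝ)‖ = 1 / 2 := by norm_num
    rw [n1]
    have : (1 / 2 : ℝ) ^ k ≤ 1 := pow_le_one₀ (by norm_num) (by norm_num)
    have h2 : (0 : ℝ) ≤ (1 / 2 : ℝ) ^ (j + 1) := by positivity
    nlinarith
  · by_cases h2 : p = (k, 0)
    · subst h2
      have a1 : yv (k, j + 1) (k, 0) = (1 / 2 : ℝ) ^ k := by simp [yv]
      have a2 : yv (k, 0) (k, 0) = (1 / 4 : ℝ) ^ k := by simp [yv]
      rw [a1, a2]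
      have : (1 / 2 : ℝ) ^ k * (1 / 2 : ℝ) ^ k = (1 / 4 : ℝ) ^ k := by
        rw [← mul_pow]; norm_num
      rw [this, sub_self, norm_zero]
      positivity
    · have a1 : yv (k, j + 1) p = 0 := by
        unfold yv
        rw [if_neg (fun h => h1 h.1), if_neg h2]
      have a2 : yv (k, 0) p = 0 := by
        unfold yv
        rw [if_neg (fun h => h.2 rfl), if_neg h2]
      rw [a1, a2, mul_zero, sub_zero, norm_zero]
      positivity

theorem t4 : Tendsto (fun k : ℕ => (1 / 4 : ℝ) ^ k) atTop (𝓝 0) :=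
  tendsto_pow_atTop_nhds_zero_of_lt_one (by norm_num) (by norm_num)

theorem hAv : Tendsto (fun k : ℕ => AA.{u, v} (lp.single 1 ⟨(k, 0)⟩ (1 : ℝ))) atTop (𝓝 0) :=
  squeeze_zero_norm AA_v t4

theorem norm_v (k : ℕ) :
    ‖(lp.single 1 (⟨(k, 0)⟩ : ULift.{u} (ℕ × ℕ)) (1 : ℝ) :
      lp (fun _ : ULift.{u} (ℕ × ℕ) => ℝ) 1)‖ = 1 := by
  rw [lp.norm_single (by norm_num)]
  norm_num

theorem AA_not_closed : ¬ IsClosed (Set.range AA.{u, v}) := by
  intro h
  obtain ⟨K, hK⟩ := AA.{u, v}.antilipschitz_of_injective_of_isClosed_range AA_inj h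
  have h1 : ∀ k : ℕ, (1 : ℝ) ≤ K * (1 / 4 : ℝ) ^ k := by
    intro k
    have h2 := AA.{u, v}.bound_of_antilipschitz hK (lp.single 1 ⟨(k, 0)⟩ (1 : ℝ))
    rw [norm_v] at h2
    exact h2.trans (mul_le_mul_of_nonneg_left (AA_v k) K.2)
  have h3 : Tendsto (fun k : ℕ => (K : ℝ) * (1 / 4 : ℝ) ^ k) atTop (𝓝 ((K : ℝ) * 0)) :=
    t4.const_mul _
  rw [mul_zero] at h3
  have := ge_of_tendsto' h3 h1
  linarith

theorem main : ¬ (∀ (X : Type u) (Y : Type v) [NormedAddCommGroup X] [NormedSpace ℝ X]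
      [CompleteSpace X] [TopologicalSpace.SeparableSpace X]
      [NormedAddCommGroup Y] [NormedSpace ℝ Y] [CompleteSpace Y]
      (A : X →L[ℝ] Y), Function.Injective A → ¬ IsClosed (Set.range A) →
      ∃ T : ℝ → Y → X, ∀ f : X, ∀ ε : ℝ, 0 < ε → ∃ δ : ℝ, 0 < δ ∧
        ∀ α : ℝ, 0 < α → α ≤ 1 → α < δ → ∀ g : Y, ‖g - A f‖ ≤ α → ‖f - T α g‖ ≤ ε) := by
  intro h
  have := l1_separable (ι := ULift.{u} (ℕ × ℕ))
  have h1 := h (lp (fun _ : ULift.{u} (ℕ × ℕ) => ℝ) 1) (ULift.{v} (ℕ × ℕ) →ᵇ ℝ) AA.{u, v}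
    AA_inj AA_not_closed
  refine core AA.{u, v} (fun k => lp.single 1 ⟨(k, 0)⟩ (1 : ℝ))
    (fun k j => lp.single 1 ⟨(k, j + 1)⟩ ((1 / 2 : ℝ) ^ k)) ?_ hAv ?_ ?_ h1
  · intro k
    exact (norm_v k).ge
  · intro k j
    rw [lp.norm_single (by norm_num), norm_pow]
    exact pow_le_pow_left₀ (norm_nonneg _) (by norm_num) _
  · intro k
    rw [tendsto_iff_norm_sub_tendsto_zero]
    refine squeeze_zero (fun _ => norm_nonneg _) (AA_e k) ?_
    exact (tendsto_pow_atTop_nhds_zero_of_lt_one (by norm_num) (by norm_num)).comp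
      (tendsto_add_atTop_nat 1)

end Pool.Agent.X84.Reg
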